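import Pool.Agent.Helper66.E7.Defs

/-!
# Project 7E (MP_a499ba_nt), block F2: the representation of `BB` with linear phases
-/

set_option autoImplicit false

open Complex Filter Topology MeasureTheory Set intervalIntegral
open Pool.Agent.Helper57.Zeta
open Pool.Agent.Helper71.MR (ms mm rr kr Cin Qf cw one_sub_cos_nonneg one_sub_cos_le_lin cin_integrable
  Cin_nonneg Cin_le_lin Cin_le_rt Cin_meas abs_cos_sub_cos_le)

namespace Pool.Agent.E7
namespace F2

/-- the integrand of the entire cosine integral -/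
noncomputable def gc (v : ℝ) : ℝ := (1 - Real.cos v) / v

theorem gc_meas : Measurable gc := by unfold gc; fun_prop

theorem gc_abs_le (v : ℝ) : |gc v| ≤ 1 := by
  unfold gc
  rw [abs_div]
  have h1 : |1 - Real.cos v| ≤ |v| := by
    rw [abs_of_nonneg (one_sub_cos_nonneg v), ← Real.cos_abs]
    exact one_sub_cos_le_lin (abs_nonneg v)
  exact div_le_one_of_le₀ h1 (abs_nonneg v)

theorem gc_int (a b : ℝ) : IntervalIntegrable gc volume a b := by
  have h : IntervalIntegrable (fun _ : ℝ => (1:ℝ)) volume a b := intervalIntegrable_const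
  refine h.mono_fun gc_meas.aestronglyMeasurable ?_
  filter_upwards with v
  rw [Real.norm_eq_abs, Real.norm_eq_abs, abs_one]
  exact gc_abs_le v

theorem Cin_eq (z : ℝ) : Cin z = ∫ v in (0:ℝ)..z, gc v := by
  have h := intervalIntegral.mul_integral_comp_mul_left (a := 0) (b := 1) (f := gc) z
  rw [mul_zero, mul_one] at h
  rw [← h]
  unfold Cin
  rw [← intervalIntegral.integral_of_le zero_le_one, ← intervalIntegral.integral_const_mul]
  apply intervalIntegral.integral_congr
  intro y _
  show (1 - Real.cos (z * y)) / y = z * gc (z * y)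
  unfold gc
  rcases eq_or_ne z 0 with h0 | h0
  · simp [h0]
  · rcases eq_or_ne y 0 with h1 | h1
    · simp [h1]
    · field_simp

theorem gc_cont {z : ℝ} (hz : z ≠ 0) : ContinuousAt gc z := by
  unfold gc
  exact ContinuousAt.div (by fun_prop) continuousAt_id hz

theorem Cin_deriv {z : ℝ} (hz : z ≠ 0) : HasDerivAt Cin (gc z) z := by
  have h : Cin = fun z => ∫ v in (0:ℝ)..z, gc v := funext Cin_eq
  rw [h]
  exact intervalIntegral.integral_hasDerivAt_right (gc_int 0 z)
    (gc_meas.stronglyMeasurable.stronglyMeasurableAtFilter) (gc_cont hz)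

/-- `∫ (1 - cos (c e^q)) dq` -/
theorem int_low (c A B : ℝ) (hc : 0 < c) :
    ∫ q in A..B, (1 - Real.cos (c * Real.exp q)) = Cin (c * Real.exp B) - Cin (c * Real.exp A) := by
  have hd : ∀ q ∈ uIcc A B, HasDerivAt (fun q => Cin (c * Real.exp q)) (1 - Real.cos (c * Real.exp q)) q := by
    intro q _
    have h0 : c * Real.exp q ≠ 0 := by positivity
    have h1 := (Cin_deriv h0).comp q ((Real.hasDerivAt_exp q).const_mul c)
    have h2 : gc (c * Real.exp q) * (c * Real.exp q) = 1 - Real.cos (c * Real.exp q) := by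
      unfold gc
      field_simp
    rw [h2] at h1
    exact h1
  rw [intervalIntegral.integral_eq_sub_of_hasDerivAt hd]
  apply Continuous.intervalIntegrable
  fun_prop

/-- the integrand in `y` -/
noncomputable def hh (T f a y : ℝ) : ℝ := (Real.cos f - Real.cos (2 * Real.pi * T * y + f)) * (1 - Real.cos (a / y)) / y

theorem hh_meas (T f a : ℝ) : Measurable (hh T f a) := by unfold hh; fun_prop

theorem cos_diff_le (T f y : ℝ) (hT : 0 ≤ T) : |Real.cos f - Real.cos (2 * Real.pi * T * y + f)| ≤ 2 * Real.pi * T * |y| := by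
  have h := abs_cos_sub_cos_le f (2 * Real.pi * T * y + f)
  rw [show f - (2 * Real.pi * T * y + f) = -(2 * Real.pi * T * y) by ring, abs_neg, abs_mul,
    abs_of_nonneg (a := 2 * Real.pi * T) (by positivity)] at h
  exact h

theorem hh_abs_le (T f a y : ℝ) (hT : 0 ≤ T) : |hh T f a y| ≤ 4 * Real.pi * T := by
  have hpi := Real.pi_pos
  unfold hh
  rw [abs_div, abs_mul]
  have h1 := cos_diff_le T f y hT
  have h2 : |1 - Real.cos (a / y)| ≤ 2 := by
    rw [abs_of_nonneg (one_sub_cos_nonneg _)]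
    linarith [Real.neg_one_le_cos (a / y)]
  rcases eq_or_ne y 0 with h0 | h0
  · rw [h0, abs_zero, div_zero]; positivity
  · have hy : 0 < |y| := abs_pos.mpr h0
    rw [div_le_iff₀ hy]
    calc |Real.cos f - Real.cos (2 * Real.pi * T * y + f)| * |1 - Real.cos (a / y)|
        ≤ (2 * Real.pi * T * |y|) * 2 := by
          apply mul_le_mul h1 h2 (abs_nonneg _) (by positivity)
      _ = 4 * Real.pi * T * |y| := by ring

theorem hh_int (T f a A B : ℝ) (hT : 0 ≤ T) : IntervalIntegrable (hh T f a) volume A B := by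
  have h : IntervalIntegrable (fun _ : ℝ => 4 * Real.pi * T) volume A B := intervalIntegrable_const
  refine h.mono_fun (hh_meas T f a).aestronglyMeasurable ?_
  filter_upwards with v
  rw [Real.norm_eq_abs, Real.norm_eq_abs]
  exact (hh_abs_le T f a v hT).trans (le_abs_self _)

theorem hh_cont {T f a y : ℝ} (hy : y ≠ 0) : ContinuousAt (hh T f a) y := by
  unfold hh
  have h1 : ContinuousAt (fun y : ℝ => a / y) y := continuousAt_const.div continuousAt_id hy
  have h2 : ContinuousAt (fun y : ℝ => Real.cos (a / y)) y := Real.continuous_cos.continuousAt.comp h1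
  have h3 : ContinuousAt (fun y : ℝ => (Real.cos f - Real.cos (2 * Real.pi * T * y + f))) y := by fun_prop
  exact (h3.mul (continuousAt_const.sub h2)).div continuousAt_id hy

/-- `Cin (a/y) sin (..)` -/
theorem cs_int (T f a : ℝ) (ha : 0 ≤ a) :
    IntervalIntegrable (fun y => Cin (a / y) * Real.sin (2 * Real.pi * T * y + f)) volume 0 1 := by
  have h : IntervalIntegrable (fun y : ℝ => 8 * a ^ (1 / 4 : ℝ) * y ^ (-(1 / 4) : ℝ)) volume 0 1 :=
    (intervalIntegral.intervalIntegrable_rpow' (by norm_num)).const_mul _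
  have hm : Measurable (fun y => Cin (a / y) * Real.sin (2 * Real.pi * T * y + f)) := by
    have := Cin_meas
    fun_prop
  rw [intervalIntegrable_iff_integrableOn_Ioc_of_le zero_le_one] at h ⊢
  refine Integrable.mono' h hm.aestronglyMeasurable ?_
  filter_upwards [self_mem_ae_restrict measurableSet_Ioc] with y hy
  have hy0 : 0 < y := hy.1
  rw [norm_mul, Real.norm_eq_abs, Real.norm_eq_abs, abs_of_nonneg (Cin_nonneg _)]
  have h1 := Cin_le_rt (z := a / y) (by positivity)
  have h2 : (a / y) ^ (1 / 4 : ℝ) = a ^ (1 / 4 : ℝ) * y ^ (-(1 / 4) : ℝ) := by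
    rw [Real.div_rpow ha hy0.le, Real.rpow_neg hy0.le, div_eq_mul_inv]
  rw [h2] at h1
  calc Cin (a / y) * |Real.sin (2 * Real.pi * T * y + f)| ≤ Cin (a / y) * 1 :=
        mul_le_mul_of_nonneg_left (Real.abs_sin_le_one _) (Cin_nonneg _)
    _ ≤ 8 * a ^ (1 / 4 : ℝ) * y ^ (-(1 / 4) : ℝ) := by linarith

/-- the primitive -/
noncomputable def Ps (T f a y : ℝ) : ℝ := Cin (a / y) * (Real.cos f - Real.cos (2 * Real.pi * T * y + f))

theorem Ps_deriv {T f a y : ℝ} (ha : 0 < a) (hy : 0 < y) :
    HasDerivAt (Ps T f a) (2 * Real.pi * T * (Cin (a / y) * Real.sin (2 * Real.pi * T * y + f)) - hh T f a y) y := by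
  have h0 : a / y ≠ 0 := by positivity
  have h1 : HasDerivAt (fun y : ℝ => a / y) (-(a / y ^ 2)) y := by
    have h9 := (hasDerivAt_inv hy.ne').const_mul a
    exact h9.congr_deriv (by ring)
  have h2 := (Cin_deriv h0).comp y h1
  have h3 : HasDerivAt (fun y : ℝ => Real.cos f - Real.cos (2 * Real.pi * T * y + f))
      (Real.sin (2 * Real.pi * T * y + f) * (2 * Real.pi * T)) y := by
    have h4 : HasDerivAt (fun y : ℝ => 2 * Real.pi * T * y + f) (2 * Real.pi * T) y := by
      have := ((hasDerivAt_id y).const_mul (2 * Real.pi * T)).add_const f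
      simpa using this
    have h5 := (Real.hasDerivAt_cos (2 * Real.pi * T * y + f)).comp y h4
    have h6 := h5.const_sub (Real.cos f)
    exact h6.congr_deriv (by ring)
  have h7 := h2.mul h3
  refine h7.congr_deriv ?_
  unfold hh gc
  simp only [Function.comp]
  field_simp
  ring

theorem Ps_zero_bound {T f a y : ℝ} (hT : 0 ≤ T) (ha : 0 ≤ a) (hy : 0 < y) :
    |Ps T f a y| ≤ 16 * Real.pi * T * a ^ (1 / 4 : ℝ) * y ^ (3 / 4 : ℝ) := by
  unfold Ps
  rw [abs_mul, abs_of_nonneg (Cin_nonneg _)]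
  have h1 := Cin_le_rt (z := a / y) (by positivity)
  have h2 : (a / y) ^ (1 / 4 : ℝ) = a ^ (1 / 4 : ℝ) * y ^ (-(1 / 4) : ℝ) := by
    rw [Real.div_rpow ha hy.le, Real.rpow_neg hy.le, div_eq_mul_inv]
  rw [h2] at h1
  have h3 := cos_diff_le T f y hT
  rw [abs_of_pos hy] at h3
  have h4 : y ^ (-(1 / 4) : ℝ) * y = y ^ (3 / 4 : ℝ) := by
    rw [← Real.rpow_add_one hy.ne']; norm_num
  have hpi := Real.pi_pos
  calc Cin (a / y) * |Real.cos f - Real.cos (2 * Real.pi * T * y + f)|
      ≤ (8 * (a ^ (1 / 4 : ℝ) * y ^ (-(1 / 4) : ℝ))) * (2 * Real.pi * T * y) :=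
        mul_le_mul h1 h3 (abs_nonneg _) (by positivity)
    _ = 16 * Real.pi * T * a ^ (1 / 4 : ℝ) * (y ^ (-(1 / 4) : ℝ) * y) := by ring
    _ = _ := by rw [h4]

theorem Ps_cont {T f a : ℝ} (hT : 0 ≤ T) (ha : 0 < a) : ContinuousOn (Ps T f a) (Icc 0 1) := by
  intro y hy
  rcases hy.1.eq_or_lt with h0 | h0
  · rw [← h0]
    have hz : Ps T f a 0 = 0 := by unfold Ps; simp
    rw [ContinuousWithinAt, hz]
    rw [tendsto_zero_iff_norm_tendsto_zero]
    have hlim : Tendsto (fun y : ℝ => 16 * Real.pi * T * a ^ (1 / 4 : ℝ) * y ^ (3 / 4 : ℝ)) (𝓝[Icc 0 1] 0) (𝓝 0) := by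
      have h1 : ContinuousAt (fun y : ℝ => 16 * Real.pi * T * a ^ (1 / 4 : ℝ) * y ^ (3 / 4 : ℝ)) 0 :=
        continuousAt_const.mul (Real.continuousAt_rpow_const 0 (3 / 4) (Or.inr (by norm_num)))
      have h2 : 16 * Real.pi * T * a ^ (1 / 4 : ℝ) * (0:ℝ) ^ (3 / 4 : ℝ) = 0 := by
        rw [Real.zero_rpow (by norm_num), mul_zero]
      have h3 := h1.tendsto
      rw [h2] at h3
      exact h3.mono_left nhdsWithin_le_nhds
    refine squeeze_zero' (Eventually.of_forall fun _ => norm_nonneg _) ?_ hlim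
    filter_upwards [self_mem_nhdsWithin] with y hy
    rcases hy.1.eq_or_lt with h1 | h1
    · rw [← h1, hz, norm_zero, Real.zero_rpow (by norm_num), mul_zero]
    · exact Ps_zero_bound hT ha.le h1
  · exact (Ps_deriv ha h0).continuousAt.continuousWithinAt

/-- integration by parts -/
theorem BB_eq {T f a : ℝ} (hT : 0 ≤ T) (ha : 0 < a) :
    BB T f a = Real.cos f * Cin a + ∫ y in (0:ℝ)..1, hh T f a y := by
  have hI : IntervalIntegrable (fun y => 2 * Real.pi * T * (Cin (a / y) * Real.sin (2 * Real.pi * T * y + f)) -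
      hh T f a y) volume 0 1 := ((cs_int T f a ha.le).const_mul _).sub (hh_int T f a 0 1 hT)
  have h := intervalIntegral.integral_eq_sub_of_hasDeriv_right_of_le zero_le_one (Ps_cont (f := f) hT ha)
    (fun y hy => (Ps_deriv (T := T) (f := f) ha hy.1).hasDerivWithinAt) hI
  rw [intervalIntegral.integral_sub ((cs_int T f a ha.le).const_mul _) (hh_int T f a 0 1 hT),
    intervalIntegral.integral_const_mul] at h
  have hz : Ps T f a 0 = 0 := by unfold Ps; simp
  have h1 : Ps T f a 1 = Cin a * (Real.cos f - Real.cos (2 * Real.pi * T + f)) := by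
    unfold Ps; rw [div_one, mul_one]
  rw [hz, h1, sub_zero, intervalIntegral.integral_of_le zero_le_one] at h
  unfold BB
  linarith

/-- substitution `y = s e^-q` -/
theorem int_up (T f a s A B : ℝ) (hs : 0 < s) :
    ∫ y in (s * Real.exp (-B))..(s * Real.exp (-A)), hh T f a y =
    ∫ q in A..B, (Real.cos f - Real.cos (2 * Real.pi * T * (s * Real.exp (-q)) + f)) *
      (1 - Real.cos (a / (s * Real.exp (-q)))) := by
  have hd : ∀ q ∈ uIcc A B, HasDerivAt (fun q : ℝ => s * Real.exp (-q)) (-(s * Real.exp (-q))) q := by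
    intro q _
    have h9 := (((Real.hasDerivAt_exp (-q)).comp q (hasDerivAt_neg q))).const_mul s
    exact h9.congr_deriv (by ring)
  have h := intervalIntegral.integral_comp_mul_deriv' (a := A) (b := B) (f := fun q : ℝ => s * Real.exp (-q))
    (f' := fun q => -(s * Real.exp (-q))) (g := hh T f a) hd (by fun_prop) (by
      rintro y ⟨q, _, rfl⟩
      exact (hh_cont (by positivity)).continuousWithinAt)
  simp only [Function.comp] at h
  rw [intervalIntegral.integral_symm, ← h, ← intervalIntegral.integral_neg]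
  apply intervalIntegral.integral_congr
  intro q _
  show -(hh T f a (s * Real.exp (-q)) * -(s * Real.exp (-q))) = _
  unfold hh
  have h0 : s * Real.exp (-q) ≠ 0 := by positivity
  field_simp

end F2

open F2

theorem stmtF2 : StmtF2 := by
  intro T f ρ r k L hT hρ hr1 hr2 hk hL
  have hpi := Real.pi_pos
  have hT0 : 0 < T := by linarith
  have hρ0 : 0 < ρ := by linarith
  have hk0 : 0 < k := by linarith
  have hρT : 0 < ρ * T := by positivity
  have hr0 : 0 < r := by linarith
  set a := 2 * Real.pi * r ^ 2 / (T * k) with ha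
  have ha0 : 0 < a := by positivity
  set s := r / T with hs
  have hs0 : 0 < s := by positivity
  set c := 2 * Real.pi * r / k with hc
  have hc0 : 0 < c := by positivity
  set Q := Real.log s with hQ
  have hexpQ : Real.exp Q = s := Real.exp_log hs0
  have hexpnQ : Real.exp (-Q) = s⁻¹ := by rw [Real.exp_neg, hexpQ]
  -- the break points
  have hsr : ρ ≤ s := by rw [hs, le_div_iff₀ hT0]; exact hr1
  have hρQ : Real.log ρ ≤ Q := Real.log_le_log hρ0 hsr
  have hQL : Q ≤ L := by
    have h1 : s ≤ 2 * ρ := by rw [hs, div_le_iff₀ hT0]; linarith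
    have h2 : Q ≤ Real.log (2 * ρ) := Real.log_le_log hs0 h1
    rw [Real.log_mul (by norm_num) hρ0.ne'] at h2
    have h3 : Real.log 2 ≤ 1 := by linarith [Real.log_two_lt_d9]
    linarith
  have hlogρ : 0 ≤ Real.log ρ := Real.log_nonneg hρ
  -- lower integral
  have hlow : ∫ q in (-L)..Q, bl f r k q = Real.cos f * (Cin a - Cin (c * Real.exp (-L))) := by
    have h1 := int_low c (-L) Q hc0
    have h2 : c * Real.exp Q = a := by rw [hexpQ, hc, ha, hs]; field_simp
    rw [h2] at h1
    rw [← h1, ← intervalIntegral.integral_const_mul]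
    apply intervalIntegral.integral_congr
    intro q _
    show bl f r k q = _
    unfold bl
    rw [hc]
    congr 3
    ring_nf
  -- upper integral
  have hup : ∫ q in Q..L, bu f r k q = ∫ y in (s * Real.exp (-L))..1, hh T f a y := by
    have h1 := int_up T f a s Q L hs0
    rw [hexpnQ, mul_inv_cancel₀ hs0.ne'] at h1
    rw [h1]
    apply intervalIntegral.integral_congr
    intro q _
    show bu f r k q = (Real.cos f - Real.cos (2 * Real.pi * T * (s * Real.exp (-q)) + f)) *
      (1 - Real.cos (a / (s * Real.exp (-q))))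
    unfold bu
    have h3 : 2 * Real.pi * T * (s * Real.exp (-q)) = 2 * Real.pi * r * Real.exp (-q) := by
      rw [hs]; field_simp
    have h4 : a / (s * Real.exp (-q)) = 2 * Real.pi * r * (Real.exp q / k) := by
      rw [ha, hs, Real.exp_neg]; field_simp
    rw [h3, h4]
  have hbl : Continuous (bl f r k) := by unfold bl; fun_prop
  have hbu : Continuous (bu f r k) := by unfold bu; fun_prop
  have e1 : ∫ q in (-L)..Q, bl f r k q = (∫ q in (-L)..(Real.log ρ), bl f r k q) + ∫ q in (Real.log ρ)..Q, bl f r k q :=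
    (intervalIntegral.integral_add_adjacent_intervals (hbl.intervalIntegrable _ _) (hbl.intervalIntegrable _ _)).symm
  have e2 : ∫ q in (Real.log ρ)..L, bu f r k q = (∫ q in (Real.log ρ)..Q, bu f r k q) + ∫ q in Q..L, bu f r k q :=
    (intervalIntegral.integral_add_adjacent_intervals (hbu.intervalIntegrable _ _) (hbu.intervalIntegrable _ _)).symm
  have e3 : ∫ y in (0:ℝ)..1, hh T f a y = (∫ y in (0:ℝ)..(s * Real.exp (-L)), hh T f a y) +
      ∫ y in (s * Real.exp (-L))..1, hh T f a y :=
    (intervalIntegral.integral_add_adjacent_intervals (hh_int _ _ _ _ _ hT0.le) (hh_int _ _ _ _ _ hT0.le)).symm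
  have e4 : (∫ q in (Real.log ρ)..Q, bl f r k q) - (∫ q in (Real.log ρ)..Q, bu f r k q) =
      ∫ q in (Real.log ρ)..Q, (bl f r k q - bu f r k q) :=
    (intervalIntegral.integral_sub (hbl.intervalIntegrable _ _) (hbu.intervalIntegrable _ _)).symm
  -- bounds
  have b1 : |∫ q in (Real.log ρ)..Q, (bl f r k q - bu f r k q)| ≤ 2 * (Q - Real.log ρ) := by
    have h1 : ∀ q ∈ Set.uIoc (Real.log ρ) Q, ‖bl f r k q - bu f r k q‖ ≤ 2 := by
      intro q _
      unfold bl bu
      rw [Real.norm_eq_abs, ← sub_mul, abs_mul]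
      have h2 : |Real.cos f - (Real.cos f - Real.cos (2 * Real.pi * r * Real.exp (-q) + f))| ≤ 1 := by
        rw [sub_sub_cancel]; exact Real.abs_cos_le_one _
      have h3 : |1 - Real.cos (2 * Real.pi * r * (Real.exp q / k))| ≤ 2 := by
        rw [abs_of_nonneg (one_sub_cos_nonneg _)]
        linarith [Real.neg_one_le_cos (2 * Real.pi * r * (Real.exp q / k))]
      calc _ ≤ (1:ℝ) * 2 := mul_le_mul h2 h3 (abs_nonneg _) zero_le_one
        _ = 2 := by norm_num
    have h4 := intervalIntegral.norm_integral_le_of_norm_le_const h1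
    rw [Real.norm_eq_abs, abs_of_nonneg (a := Q - Real.log ρ) (by linarith)] at h4
    exact h4
  have b2 : Q - Real.log ρ ≤ r / (ρ * T) - 1 := by
    have h1 : Q - Real.log ρ = Real.log (r / (ρ * T)) := by
      rw [hQ, ← Real.log_div hs0.ne' hρ0.ne', hs]
      congr 1
      field_simp
    rw [h1]
    exact Real.log_le_sub_one_of_pos (by positivity)
  have b3 : |Real.cos f * Cin (c * Real.exp (-L))| ≤ 2 * Real.pi * r * Real.exp (-L) := by
    have h1 := Cin_le_lin (z := c * Real.exp (-L)) (by positivity)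
    have h2 : c ≤ 2 * Real.pi * r := by
      rw [hc, div_le_iff₀ hk0]
      nlinarith [mul_pos hpi hr0]
    rw [abs_mul, abs_of_nonneg (Cin_nonneg _)]
    calc |Real.cos f| * Cin (c * Real.exp (-L)) ≤ 1 * Cin (c * Real.exp (-L)) :=
          mul_le_mul_of_nonneg_right (Real.abs_cos_le_one f) (Cin_nonneg _)
      _ ≤ c * Real.exp (-L) := by linarith
      _ ≤ 2 * Real.pi * r * Real.exp (-L) := mul_le_mul_of_nonneg_right h2 (Real.exp_pos _).le
  have b4 : |∫ y in (0:ℝ)..(s * Real.exp (-L)), hh T f a y| ≤ 4 * Real.pi * r * Real.exp (-L) := by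
    have h1 : ∀ y ∈ Set.uIoc (0:ℝ) (s * Real.exp (-L)), ‖hh T f a y‖ ≤ 4 * Real.pi * T := fun y _ =>
      hh_abs_le T f a y hT0.le
    have h4 := intervalIntegral.norm_integral_le_of_norm_le_const h1
    rw [Real.norm_eq_abs, sub_zero, abs_of_nonneg (a := s * Real.exp (-L)) (by positivity)] at h4
    calc _ ≤ 4 * Real.pi * T * (s * Real.exp (-L)) := h4
      _ = 4 * Real.pi * r * Real.exp (-L) := by rw [hs]; field_simp
  -- assembly
  have key : BB T f a - ((∫ q in (-L)..(Real.log ρ), bl f r k q) + ∫ q in (Real.log ρ)..L, bu f r k q) =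
      (∫ q in (Real.log ρ)..Q, (bl f r k q - bu f r k q)) + Real.cos f * Cin (c * Real.exp (-L)) +
      ∫ y in (0:ℝ)..(s * Real.exp (-L)), hh T f a y := by
    rw [BB_eq hT0.le ha0, e3, ← hup, e2, ← e4]
    have h5 : Real.cos f * Cin a = (∫ q in (-L)..Q, bl f r k q) + Real.cos f * Cin (c * Real.exp (-L)) := by
      rw [hlow]; ring
    rw [h5, e1]
    ring
  rw [key]
  have hpi4 := Real.pi_lt_d2
  have hre : 0 < r * Real.exp (-L) := by positivity
  calc |(∫ q in (Real.log ρ)..Q, (bl f r k q - bu f r k q)) + Real.cos f * Cin (c * Real.exp (-L)) +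
      ∫ y in (0:ℝ)..(s * Real.exp (-L)), hh T f a y|
      ≤ |∫ q in (Real.log ρ)..Q, (bl f r k q - bu f r k q)| + |Real.cos f * Cin (c * Real.exp (-L))| +
        |∫ y in (0:ℝ)..(s * Real.exp (-L)), hh T f a y| := abs_add_three _ _ _
    _ ≤ 2 * (r / (ρ * T) - 1) + 2 * Real.pi * r * Real.exp (-L) + 4 * Real.pi * r * Real.exp (-L) := by
        linarith
    _ = 2 * (r / (ρ * T) - 1) + 6 * Real.pi * (r * Real.exp (-L)) := by ring
    _ ≤ 2 * (r / (ρ * T) - 1) + 40 * (r * Real.exp (-L)) := by
        have : 6 * Real.pi ≤ 40 := by linarith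
        nlinarith
    _ = 2 * (r / (ρ * T) - 1) + 40 * r * Real.exp (-L) := by ring

end Pool.Agent.E7
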