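import Pool.Agent.Helper66.E7.Defs2

/-!
# Project 7E (MP_a499ba_nt), block P2: Chebyshev's upper bound
-/

set_option autoImplicit false

open Filter Topology

namespace Pool.Agent.E7

theorem stmtP2 : StmtP2 := by
  have h := Chebyshev.eventually_primeCounting_le (ε := 1) one_pos
  obtain ⟨x0, hx0⟩ := eventually_atTop.mp h
  refine ⟨Real.log 4 + 1, by positivity, ⌈x0⌉₊, fun y hy => ?_⟩
  have h1 := hx0 (y : ℝ) ((Nat.le_ceil x0).trans (by exact_mod_cast hy))
  rw [Nat.floor_natCast] at h1
  rw [← mul_div_assoc]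
  exact h1

end Pool.Agent.E7
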